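import Pool.Agent.Q92.AR.Stm2
import Pool.Agent.Y772.TW.Pos

/-!
# Project AR of helper92, JOB AR-CYC: reciprocity for subfields of cyclotomic extensions
-/

set_option autoImplicit false

open NumberField IsDedekindDomain Pool.Agent.Q5.BR Pool.Agent.Q92.AR

namespace Pool.Agent.Q257.AR

section
variable {F : Type} [Field F] [NumberField F]

/-- the ideal norm of an integer congruent to one modulo `m`, totally positive -/
theorem norm_modEq (m : ℕ) (a : 𝓞 F) (ha : a ≠ 0) (hm : (m : 𝓞 F) ∣ a - 1) (hp : Pos (a : F)) :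
    Ideal.absNorm (Ideal.span {a}) ≡ 1 [MOD m] := by
  have h1 := Pool.Agent.Y772.TW.absNorm_tpos ha (fun σ => hp σ)
  obtain ⟨y, hy⟩ := hm
  obtain ⟨r, hr⟩ := Algebra.norm_one_add_smul (m : ℤ) y
  have h2 : a = 1 + (m : ℤ) • y := by
    rw [zsmul_eq_mul]
    push_cast
    rw [← hy]
    ring
  rw [← h2, ← h1] at hr
  rw [← Int.natCast_modEq_iff, hr]
  have h3 : (1 : ℤ) + Algebra.trace ℤ (𝓞 F) y * m + r * m ^ 2 =
      1 + m * (Algebra.trace ℤ (𝓞 F) y + r * m) := by ring
  rw [h3]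
  push_cast
  exact Int.ModEq.symm (Int.modEq_iff_dvd.2 ⟨Algebra.trace ℤ (𝓞 F) y + r * m, by ring⟩)

omit [NumberField F] in
theorem span_ne (a : 𝓞 F) (ha : a ≠ 0) : Ideal.span {a} ≠ 0 := by
  rw [Ne, Ideal.zero_eq_bot, Ideal.span_singleton_eq_bot]
  exact ha

/-- the divisor of an integer, as an exponent -/
theorem prin_eq (a : 𝓞 F) (ha : a ≠ 0) (u : Fˣ) (hu : (u : F) = a) (v : HeightOneSpectrum (𝓞 F)) :
    prin u v = ((Associates.mk v.asIdeal).count (Associates.mk (Ideal.span {a})).factors : ℤ) := by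
  rw [prin_apply, hu]
  have h1 : FractionalIdeal.spanSingleton (nonZeroDivisors (𝓞 F)) (a : F) =
      ((Ideal.span {a} : Ideal (𝓞 F)) : FractionalIdeal (nonZeroDivisors (𝓞 F)) F) := by
    rw [FractionalIdeal.coeIdeal_span_singleton]
  rw [h1, FractionalIdeal.count_coe]
  exact span_ne a ha

theorem absNorm_eq (a : 𝓞 F) (ha : a ≠ 0) (u : Fˣ) (hu : (u : F) = a) :
    Ideal.absNorm (Ideal.span {a}) =
      ∏ v ∈ (prin u).support, Ideal.absNorm v.asIdeal ^ (prin u v).toNat := by
  have h1 := Ideal.finprod_heightOneSpectrum_factorization (span_ne a ha)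
  have h2 : ∀ v : HeightOneSpectrum (𝓞 F), v.maxPowDividing (Ideal.span {a}) =
      v.asIdeal ^ (prin u v).toNat := by
    intro v
    rw [prin_eq a ha u hu v, Int.toNat_natCast]
    rfl
  conv_lhs => rw [← h1]
  rw [finprod_congr h2, finprod_eq_prod_of_mulSupport_subset (s := (prin u).support)]
  · rw [map_prod]
    simp only [map_pow]
  · intro v hv
    rw [Function.mem_mulSupport] at hv
    rw [Finset.mem_coe, Finsupp.mem_support_iff]
    intro h
    apply hv
    rw [h, Int.toNat_zero, pow_zero]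

end

section
variable {F E C : Type} [Field F] [NumberField F] [Field E] [NumberField E] [Field C]
  [NumberField C] [Algebra F E] [Algebra E C] [Algebra F C] [IsScalarTower F E C]

/-- roots of unity of order prime to an ideal are different modulo the ideal -/
theorem pow_eq_of_mem {R : Type} [CommRing R] [IsDomain R] {m : ℕ} [NeZero m] {z : R}
    (hz : IsPrimitiveRoot z m) (w : Ideal R) [w.IsPrime] (hm : (m : R) ∉ w) {i j : ℕ}
    (h : z ^ i - z ^ j ∈ w) : z ^ i = z ^ j := by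
  wlog hij : i ≤ j generalizing i j with H
  · exact (H (by rw [← neg_sub]; exact w.neg_mem h) (le_of_not_ge hij)).symm
  obtain ⟨k, rfl⟩ := Nat.exists_eq_add_of_le hij
  have hm0 : 0 < m := Nat.pos_of_ne_zero (NeZero.ne m)
  have h1 : z ^ i * (1 - z ^ (k % m)) ∈ w := by
    have h2 : z ^ k = z ^ (k % m) := by
      conv_lhs => rw [← Nat.div_add_mod k m, pow_add, pow_mul, hz.pow_eq_one, one_pow, one_mul]
    rw [← h2, mul_sub, mul_one, ← pow_add]
    exact h
  have hu : z ^ i ∉ w := by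
    intro h2
    apply (inferInstance : w.IsPrime).ne_top
    exact Ideal.eq_top_of_isUnit_mem w h2 ((hz.isUnit hm0.ne').pow i)
  have h3 : 1 - z ^ (k % m) ∈ w := ((inferInstance : w.IsPrime).mem_or_mem h1).resolve_left hu
  by_cases h0 : k % m = 0
  · have h2 : z ^ k = z ^ (k % m) := by
      conv_lhs => rw [← Nat.div_add_mod k m, pow_add, pow_mul, hz.pow_eq_one, one_pow, one_mul]
    rw [pow_add, h2, h0, pow_zero, mul_one]
  · exfalso
    apply hm
    obtain ⟨n, rfl⟩ : ∃ n, m = n + 1 := ⟨m - 1, by omega⟩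
    have h4 := hz.prod_one_sub_pow_eq_order
    push_cast
    rw [← h4]
    have h5 : k % (n + 1) - 1 ∈ Finset.range n := by
      rw [Finset.mem_range]
      have := Nat.mod_lt k hm0
      omega
    refine Ideal.mem_of_dvd w (Finset.dvd_prod_of_mem _ h5) ?_
    have h6 : k % (n + 1) - 1 + 1 = k % (n + 1) := by omega
    rw [h6]
    exact h3

/-- a Frobenius element at a prime not dividing `m` acts on the roots of unity of order `m` by the power
`q_v` -/
theorem frob_zeta {m : ℕ} [NeZero m] {ζ : C} (hζ : IsPrimitiveRoot ζ m)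
    {v : HeightOneSpectrum (𝓞 F)} (hv : (m : 𝓞 F) ∉ v.asIdeal) {g : C ≃ₐ[F] C}
    (hg : IsFrobenius v g) : g ζ = ζ ^ Ideal.absNorm v.asIdeal := by
  obtain ⟨w, hwm, hwv, hw⟩ := hg
  have hm0 : 0 < m := Nat.pos_of_ne_zero (NeZero.ne m)
  have hwp : w.IsPrime := hwm.isPrime
  have hmw : (m : 𝓞 C) ∉ w := by
    intro h
    apply hv
    rw [← hwv, Ideal.mem_comap, map_natCast]
    exact h
  -- the root of unity as an integer
  obtain ⟨z, hz⟩ : ∃ z : 𝓞 C, (z : C) = ζ := ⟨⟨ζ, hζ.isIntegral hm0⟩, rfl⟩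
  have hzp : IsPrimitiveRoot z m := by
    apply IsPrimitiveRoot.of_map_of_injective (f := algebraMap (𝓞 C) C)
    · show IsPrimitiveRoot (z : C) m
      rw [hz]
      exact hζ
    · exact RingOfIntegers.coe_injective
  -- `g ζ` is a power of `ζ`
  obtain ⟨k, hkm, hk⟩ := hζ.eq_pow_of_pow_eq_one (ξ := g ζ) (by rw [← map_pow, hζ.pow_eq_one, map_one])
  obtain ⟨y, hy, hy'⟩ := hw z
  have h1 : y = z ^ k - z ^ Ideal.absNorm v.asIdeal := by
    apply RingOfIntegers.ext
    rw [hy', hz, ← hk]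
    change _ = (z : C) ^ k - (z : C) ^ Ideal.absNorm v.asIdeal
    rw [hz]
  rw [h1] at hy
  have h2 := pow_eq_of_mem hzp w hmw hy
  rw [← hk, ← hz]
  have h5 := congrArg (fun t : 𝓞 C => (t : C)) h2
  simpa using h5

/-- products of powers of Frobenius elements -/
theorem exists_prod [IsGalois F E] [IsGalois F C] (hFR : S_FR) (hUnr : S_Unr) (m : ℕ) [NeZero m]
    [IsCyclotomicExtension {m} F C] {ζ : C} (hζ : IsPrimitiveRoot ζ m) (ψ : (E ≃ₐ[F] E) →* ℂˣ)
    (S : Finset (HeightOneSpectrum (𝓞 F))) (n : HeightOneSpectrum (𝓞 F) → ℕ)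
    (hS : ∀ v ∈ S, (m : 𝓞 F) ∉ v.asIdeal) :
    ∃ g : C ≃ₐ[F] C, g ζ = ζ ^ (∏ v ∈ S, Ideal.absNorm v.asIdeal ^ n v) ∧
      ∑ v ∈ S, (n v : ℤ) • Additive.ofMul (ψ (frob E v)) =
        Additive.ofMul (ψ (AlgEquiv.restrictNormalHom E g)) := by
  classical
  induction S using Finset.induction_on with
  | empty =>
    refine ⟨1, by simp, ?_⟩
    rw [Finset.sum_empty, map_one, map_one]
    rfl
  | insert v S hvS ih =>
    obtain ⟨g, hg1, hg2⟩ := ih fun w hw => hS w (Finset.mem_insert_of_mem hw)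
    have hvm := hS v (Finset.mem_insert_self v S)
    obtain ⟨Φ, hΦ⟩ := exists_isFrobenius (M := C) v
    have hz := frob_zeta hζ hvm hΦ
    have hres : IsFrobenius v (AlgEquiv.restrictNormal Φ E) := hFR.1 F E C v Φ hΦ
    have hun : Unramified E v := (hUnr.1 F C m v hvm).sub
    obtain ⟨h, hh⟩ := isFrobenius_conj hun hres (frob_spec (M := E) v)
    have hψ : ψ (frob E v) = ψ (AlgEquiv.restrictNormalHom E Φ) := by
      rw [hh, map_mul, map_mul, map_inv, mul_comm, ← mul_assoc, mul_inv_cancel, one_mul]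
      rfl
    have hpow : ∀ k : ℕ, (Φ ^ k) ζ = ζ ^ (Ideal.absNorm v.asIdeal ^ k) := by
      intro k
      induction k with
      | zero => simp
      | succ k ihk =>
        rw [pow_succ, AlgEquiv.mul_apply, hz, map_pow, ihk, ← pow_mul, ← pow_succ]
    refine ⟨Φ ^ n v * g, ?_, ?_⟩
    · rw [AlgEquiv.mul_apply, hg1, map_pow, hpow, ← pow_mul, Finset.prod_insert hvS]
    · rw [Finset.sum_insert hvS, hg2, hψ, map_mul, map_mul, map_pow, map_pow, ofMul_mul, ofMul_pow,
        natCast_zsmul]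

end

theorem cyc (hFrac : S_Frac) (hFR : S_FR) (hUnr : S_Unr) : S_Cyc := by
  intro F E C _ _ _ _ _ _ _ _ _ _ _ m _ _ N hN hmN ψ x hx
  have hG : IsGalois F C := IsCyclotomicExtension.isGalois {m} F C
  have hζ := IsCyclotomicExtension.zeta_spec m F C
  set ζ := IsCyclotomicExtension.zeta m F C with hζdef
  -- integral elements
  have key : ∀ (a : 𝓞 F) (ha : a ≠ 0) (u : Fˣ), (u : F) = a → (N : 𝓞 F) ∣ a - 1 → Pos (a : F) →
      art ψ (prin u) = 0 := by
    intro a ha u hu hNa hpos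
    have hmN' : (m : 𝓞 F) ∣ (N : 𝓞 F) := by exact_mod_cast Nat.cast_dvd_cast (α := 𝓞 F) hmN
    have hS : ∀ v ∈ (prin u).support, (m : 𝓞 F) ∉ v.asIdeal := by
      intro v hv hmv
      rw [Finsupp.mem_support_iff, prin_eq a ha u hu v] at hv
      have hv' : (Associates.mk v.asIdeal).count (Associates.mk (Ideal.span {a})).factors ≠ 0 := by
        exact_mod_cast hv
      have h1 : v.asIdeal ∣ Ideal.span {a} :=
        (Associates.count_ne_zero_iff_dvd (span_ne a ha) v.irreducible).1 hv'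
      have h2 : a ∈ v.asIdeal := by
        rw [Ideal.dvd_span_singleton] at h1
        exact h1
      have h3 : a - 1 ∈ v.asIdeal := Ideal.mem_of_dvd _ (hmN'.trans hNa) hmv
      apply v.isPrime.ne_top
      rw [Ideal.eq_top_iff_one]
      have h4 : (1 : 𝓞 F) = a - (a - 1) := by ring
      rw [h4]
      exact v.asIdeal.sub_mem h2 h3
    obtain ⟨g, hg1, hg2⟩ := exists_prod (C := C) hFR hUnr m hζ ψ (prin u).support
      (fun v => (prin u v).toNat) hS
    have h5 : g ζ = ζ := by
      rw [hg1, ← absNorm_eq a ha u hu]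
      have h6 := norm_modEq m a ha (hmN'.trans hNa) hpos
      rw [pow_eq_pow_mod _ hζ.pow_eq_one, h6, ← pow_eq_pow_mod _ hζ.pow_eq_one, pow_one]
    have h9 : g = 1 := by
      have h10 : g.toAlgHom = (1 : C ≃ₐ[F] C).toAlgHom := by
        apply (hζ.powerBasis F).algHom_ext
        rw [IsPrimitiveRoot.powerBasis_gen]
        exact h5
      exact AlgEquiv.coe_toAlgHom_injective h10
    have h12 : art ψ (prin u) =
        ∑ v ∈ (prin u).support, ((prin u v).toNat : ℤ) • Additive.ofMul (ψ (frob E v)) := by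
      conv_lhs => rw [← Finsupp.sum_single (prin u)]
      rw [Finsupp.sum, map_sum]
      refine Finset.sum_congr rfl fun v _ => ?_
      rw [art_single, Int.toNat_of_nonneg]
      rw [prin_eq a ha u hu v]
      exact Int.natCast_nonneg _
    rw [h12, hg2, h9, map_one, map_one]
    rfl
  obtain ⟨a, b, ha, hb, hNa, hNb, hpa, hpb, hab⟩ := hFrac F N hN x hx
  have ha' : (a : F) ≠ 0 := by exact_mod_cast fun h => ha (RingOfIntegers.ext h)
  have hb' : (b : F) ≠ 0 := by exact_mod_cast fun h => hb (RingOfIntegers.ext h)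
  have h1 : x * Units.mk0 (b : F) hb' = Units.mk0 (a : F) ha' := by
    apply Units.ext
    exact hab
  have h2 := key a ha (Units.mk0 (a : F) ha') rfl hNa hpa
  have h3 := key b hb (Units.mk0 (b : F) hb') rfl hNb hpb
  rw [← h1, prin_mul, map_add, h3, add_zero] at h2
  exact h2

end Pool.Agent.Q257.AR
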